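import Mathlib

/-!
# Compactness of convex hulls, the face lemma, finite covers by proper translates
-/

set_option autoImplicit false

namespace MPee94

open Set Filter Topology

variable {E : Type*} [NormedAddCommGroup E] [NormedSpace ℝ E]

/-- The convex hull of a compact subset of a finite dimensional space is compact. -/
theorem isCompact_convexHull_of_compact [FiniteDimensional ℝ E] {C : Set E} (hC : IsCompact C) :
    IsCompact (convexHull ℝ C) := by
  rcases C.eq_empty_or_nonempty with rfl | ⟨c0, hc0⟩
  · simp
  set n := Module.finrank ℝ E + 1 with hn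
  have hΦ : Continuous (fun p : (Fin n → ℝ) × (Fin n → E) => ∑ i, p.1 i • p.2 i) := by
    refine continuous_finsetSum _ fun i _ => ?_
    exact ((continuous_apply i).comp continuous_fst).smul ((continuous_apply i).comp continuous_snd)
  have hS : IsCompact ((stdSimplex ℝ (Fin n)) ×ˢ (Set.pi univ (fun _ : Fin n => C))) :=
    (isCompact_stdSimplex ℝ (Fin n)).prod (isCompact_univ_pi fun _ => hC)
  have himg := hS.image hΦ
  convert himg using 1
  apply Subset.antisymm
  · intro x hx
    obtain ⟨ι, hι, z, w, hz, hai, hw, hw1, hx'⟩ := eq_pos_convex_span_of_mem_convexHull hx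
    have hcard : Fintype.card ι ≤ n := by
      have := hai.card_le_finrank_succ
      have h2 := Submodule.finrank_le (vectorSpan ℝ (range z))
      omega
    obtain ⟨e⟩ : Nonempty (ι ↪ Fin n) := by
      rw [Function.Embedding.nonempty_iff_card_le]
      simpa using hcard
    refine ⟨(Function.extend e w 0, Function.extend e z (fun _ => c0)), ⟨⟨?_, ?_⟩, ?_⟩, ?_⟩
    · intro j
      by_cases hj : ∃ i, e i = j
      · obtain ⟨i, rfl⟩ := hj
        simp only [e.injective.extend_apply]
        exact (hw i).le
      · simp only [Function.extend_apply' _ _ _ hj]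
        simp
    · rw [← hw1]
      symm
      apply Fintype.sum_of_injective e e.injective
      · intro j hj
        dsimp only
        rw [Function.extend_apply' _ _ _ (by simpa using hj)]
        simp
      · intro i
        simp only [e.injective.extend_apply]
    · intro j _
      by_cases hj : ∃ i, e i = j
      · obtain ⟨i, rfl⟩ := hj
        simp only [e.injective.extend_apply]
        exact hz ⟨i, rfl⟩
      · simp only [Function.extend_apply' _ _ _ hj]
        exact hc0
    · rw [← hx']
      symm
      apply Fintype.sum_of_injective e e.injective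
      · intro j hj
        dsimp only
        rw [Function.extend_apply' _ _ _ (by simpa using hj)]
        simp
      · intro i
        simp only [e.injective.extend_apply]
  · rintro _ ⟨⟨w, z⟩, ⟨⟨hw, hw1⟩, hz⟩, rfl⟩
    dsimp only
    exact (convex_convexHull ℝ C).sum_mem (fun i _ => hw i) hw1
      (fun i _ => subset_convexHull ℝ C (hz i trivial))

/-- Face lemma: if every point of `C` is in the open half space `F < c` or in the convex subset
`T` of the hyperplane `F = c`, then the same holds for the convex hull. -/
theorem face_lemma (F : E →ₗ[ℝ] ℝ) (c : ℝ) {C T : Set E} (hT : Convex ℝ T)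
    (hTc : ∀ z ∈ T, F z = c) (hC : ∀ z ∈ C, F z < c ∨ z ∈ T) :
    ∀ z ∈ convexHull ℝ C, F z < c ∨ z ∈ T := by
  have hconv : Convex ℝ {z : E | F z < c ∨ z ∈ T} := by
    intro x hx y hy a b ha hb hab
    have hle : ∀ z : E, (F z < c ∨ z ∈ T) → F z ≤ c := by
      rintro z (hz | hz)
      · exact hz.le
      · exact (hTc z hz).le
    have hx' := hle x hx
    have hy' := hle y hy
    by_cases h : F (a • x + b • y) < c
    · exact Or.inl h
    right
    rw [map_add, map_smul, map_smul, smul_eq_mul, smul_eq_mul] at h
    push Not at h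
    rcases ha.eq_or_lt with rfl | ha0
    · have : b = 1 := by linarith
      subst this
      rcases hy with hy | hy
      · nlinarith
      · simpa using hy
    rcases hb.eq_or_lt with rfl | hb0
    · have : a = 1 := by linarith
      subst this
      rcases hx with hx | hx
      · nlinarith
      · simpa using hx
    rcases hx with hx | hx
    · have h1 := mul_lt_mul_of_pos_left hx ha0
      have h2 := mul_le_mul_of_nonneg_left hy' hb
      have h3 : a * c + b * c = c := by rw [← add_mul, hab, one_mul]
      linarith
    rcases hy with hy | hy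
    · have h1 := mul_lt_mul_of_pos_left hy hb0
      have h2 := mul_le_mul_of_nonneg_left hx' ha
      have h3 : a * c + b * c = c := by rw [← add_mul, hab, one_mul]
      linarith
    exact hT hx hy ha hb hab
  exact fun z hz => convexHull_min (fun z hz => hC z hz) hconv hz

/-- Every compact convex set with `0` in the interior is covered by finitely many proper
translates (here: in a nontrivial space). -/
theorem exists_cover [Nontrivial E] {K : Set E} (hK : Convex ℝ K) (hc : IsCompact K)
    (h0 : (0 : E) ∈ interior K) :
    ∃ k : ℕ, ∃ t : Fin k → E, (∀ i, t i ≠ 0) ∧ K ⊆ ⋃ i, (fun p => t i + p) '' K := by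
  -- small nonzero vector in the interior
  obtain ⟨v, hv0, hv⟩ : ∃ v : E, v ≠ 0 ∧ -v ∈ interior K := by
    obtain ⟨x, hx⟩ := exists_ne (0 : E)
    have hcont : Continuous (fun r : ℝ => -(r • x)) := (continuous_id.smul continuous_const).neg
    have h1 : (fun r : ℝ => -(r • x)) ⁻¹' interior K ∈ 𝓝 (0 : ℝ) := by
      apply hcont.continuousAt.preimage_mem_nhds
      simpa using isOpen_interior.mem_nhds h0
    have h2 : ∀ᶠ r in 𝓝[>] (0 : ℝ), (fun r : ℝ => -(r • x)) r ∈ interior K :=
      nhdsWithin_le_nhds h1
    obtain ⟨r, hr, hr'⟩ := (h2.and self_mem_nhdsWithin).exists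
    exact ⟨r • x, smul_ne_zero (ne_of_gt hr') hx, hr⟩
  have hcov : K ⊆ ⋃ u : {u : E // u ≠ 0}, (fun p => p - (u : E)) ⁻¹' interior K := by
    intro p hp
    rw [mem_iUnion]
    by_cases hp0 : p = 0
    · exact ⟨⟨v, hv0⟩, by simpa [hp0] using hv⟩
    · refine ⟨⟨(1 / 2 : ℝ) • p, smul_ne_zero (by norm_num) hp0⟩, ?_⟩
      have : p - (1 / 2 : ℝ) • p = (1 / 2 : ℝ) • (0 : E) + (1 / 2 : ℝ) • p := by
        rw [smul_zero, zero_add, sub_eq_iff_eq_add, ← add_smul]
        norm_num
      show p - (1 / 2 : ℝ) • p ∈ interior K
      rw [this]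
      exact hK.combo_interior_self_mem_interior h0 hp (by norm_num) (by norm_num) (by norm_num)
  obtain ⟨s, hs⟩ := hc.elim_finite_subcover _ (fun u => isOpen_interior.preimage
    (continuous_id.sub continuous_const)) hcov
  refine ⟨s.card, fun i => ((s.equivFin.symm i : {u : E // u ≠ 0}) : E), fun i =>
    (s.equivFin.symm i : {u : E // u ≠ 0}).2, ?_⟩
  intro p hp
  have := hs hp
  rw [mem_iUnion₂] at this
  obtain ⟨u, hu, hpu⟩ := this
  rw [mem_iUnion]
  refine ⟨s.equivFin ⟨u, hu⟩, p - u, interior_subset hpu, ?_⟩
  simp

end MPee94
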