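import Mathlib
import Pool.Agent.Lib.MP_ee94a4_gt.Compact

/-!
# The octahedron with six fins
-/

set_option autoImplicit false
set_option linter.unusedVariables false

namespace MPee94

open Set Filter Topology

abbrev E3 := EuclideanSpace ℝ (Fin 3)

/-- The coordinates of the fin at the vertex `(1,0,0)`. -/
noncomputable def gam (i : Fin 3) (t : ℝ) : ℝ :=
  if i = 0 then 1 - 7 * t - t ^ 2 else if i = 1 then -(5 * t - t ^ 2) else 5 * t - t ^ 2

noncomputable def sg (b : Bool) : ℝ := if b then 1 else -1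

/-- The six fins. -/
noncomputable def Gam (p : Fin 3 × Bool) (t : ℝ) : E3 :=
  WithLp.toLp 2 (fun i => sg p.2 * gam (i - p.1) t)

theorem Gam_apply (p : Fin 3 × Bool) (t : ℝ) (i : Fin 3) :
    Gam p t i = sg p.2 * gam (i - p.1) t := rfl

/-- The generating compact set. -/
def C : Set E3 := ⋃ p : Fin 3 × Bool, Gam p '' Icc 0 (1 / 10)

/-- The convex body. -/
noncomputable def K : Set E3 := convexHull ℝ C

theorem Gam_continuous (p : Fin 3 × Bool) : Continuous (Gam p) := by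
  unfold Gam
  apply (PiLp.continuous_toLp 2 (fun _ : Fin 3 => ℝ)).comp
  apply continuous_pi
  intro i
  apply continuous_const.mul
  unfold gam
  split_ifs <;> fun_prop

theorem C_compact : IsCompact C :=
  isCompact_iUnion fun p => isCompact_Icc.image (Gam_continuous p)

theorem K_compact : IsCompact K := isCompact_convexHull_of_compact C_compact

theorem K_convex : Convex ℝ K := convex_convexHull ℝ C

theorem Gam_mem (p : Fin 3 × Bool) {t : ℝ} (h0 : 0 ≤ t) (h1 : t ≤ 1 / 10) : Gam p t ∈ K :=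
  subset_convexHull ℝ C (mem_iUnion.mpr ⟨p, t, ⟨h0, h1⟩, rfl⟩)

/-- The symmetries. -/
noncomputable def rot (p : Fin 3 × Bool) : E3 →ₗ[ℝ] E3 where
  toFun z := WithLp.toLp 2 (fun i => sg p.2 * z (i + p.1))
  map_add' x y := by
    ext i
    simp [mul_add]
  map_smul' c x := by
    ext i
    simp
    ring

theorem rot_apply (p : Fin 3 × Bool) (z : E3) (i : Fin 3) : rot p z i = sg p.2 * z (i + p.1) := rfl

theorem sg_mul (b c : Bool) : sg b * sg c = sg (b == c) := by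
  cases b <;> cases c <;> simp [sg]

theorem rot_Gam (p q : Fin 3 × Bool) (t : ℝ) :
    rot p (Gam q t) = Gam (q.1 - p.1, p.2 == q.2) t := by
  ext i
  rw [rot_apply, Gam_apply, Gam_apply, ← mul_assoc, sg_mul]
  have h : ∀ i a b : Fin 3, i + a - b = i - (b - a) := by decide
  rw [h]

theorem rot_mem (p : Fin 3 × Bool) {z : E3} (hz : z ∈ K) : rot p z ∈ K := by
  have h1 : rot p z ∈ rot p '' K := ⟨z, hz, rfl⟩
  rw [K, (rot p).image_convexHull] at h1
  refine convexHull_mono ?_ h1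
  rintro _ ⟨w, hw, rfl⟩
  rw [C, mem_iUnion] at hw
  obtain ⟨q, t, ht, rfl⟩ := hw
  rw [rot_Gam]
  exact mem_iUnion.mpr ⟨_, t, ht, rfl⟩

/-- The coordinate functionals. -/
noncomputable def lin (a b c : ℝ) : E3 →ₗ[ℝ] ℝ where
  toFun z := a * z 0 + b * z 1 + c * z 2
  map_add' x y := by simp; ring
  map_smul' r x := by simp; ring

theorem lin_apply (a b c : ℝ) (z : E3) : lin a b c z = a * z 0 + b * z 1 + c * z 2 := rfl

theorem lin_Gam (a b c : ℝ) (p : Fin 3 × Bool) (t : ℝ) : lin a b c (Gam p t) =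
    sg p.2 * (a * gam (0 - p.1) t + b * gam (1 - p.1) t + c * gam (2 - p.1) t) := by
  rw [lin_apply, Gam_apply, Gam_apply, Gam_apply]; ring

/-- Values of a functional on the six fins. -/
theorem C_cases (a b c m : ℝ) (T : Set E3)
    (h1 : ∀ t, 0 ≤ t → t ≤ 1 / 10 →
      a * (1 - 7 * t - t ^ 2) + b * (-(5 * t - t ^ 2)) + c * (5 * t - t ^ 2) < m ∨ Gam (0, true) t ∈ T)
    (h2 : ∀ t, 0 ≤ t → t ≤ 1 / 10 →
      a * (5 * t - t ^ 2) + b * (1 - 7 * t - t ^ 2) + c * (-(5 * t - t ^ 2)) < m ∨ Gam (1, true) t ∈ T)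
    (h3 : ∀ t, 0 ≤ t → t ≤ 1 / 10 →
      a * (-(5 * t - t ^ 2)) + b * (5 * t - t ^ 2) + c * (1 - 7 * t - t ^ 2) < m ∨ Gam (2, true) t ∈ T)
    (h4 : ∀ t, 0 ≤ t → t ≤ 1 / 10 →
      -(a * (1 - 7 * t - t ^ 2) + b * (-(5 * t - t ^ 2)) + c * (5 * t - t ^ 2)) < m ∨
        Gam (0, false) t ∈ T)
    (h5 : ∀ t, 0 ≤ t → t ≤ 1 / 10 →
      -(a * (5 * t - t ^ 2) + b * (1 - 7 * t - t ^ 2) + c * (-(5 * t - t ^ 2))) < m ∨
        Gam (1, false) t ∈ T)
    (h6 : ∀ t, 0 ≤ t → t ≤ 1 / 10 →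
      -(a * (-(5 * t - t ^ 2)) + b * (5 * t - t ^ 2) + c * (1 - 7 * t - t ^ 2)) < m ∨
        Gam (2, false) t ∈ T) :
    ∀ z ∈ C, lin a b c z < m ∨ z ∈ T := by
  intro z hz
  rw [C, mem_iUnion] at hz
  obtain ⟨⟨r, e⟩, t, ⟨ht0, ht1⟩, rfl⟩ := hz
  rw [lin_Gam]
  have e0 : (0 : Fin 3) - 1 = 2 := by decide
  have e1 : (0 : Fin 3) - 2 = 1 := by decide
  have e2 : (1 : Fin 3) - 2 = 2 := by decide
  have e3 : (2 : Fin 3) - 1 = 1 := by decide
  have n1 : (1 : Fin 3) ≠ 0 := by decide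
  have n2 : (2 : Fin 3) ≠ 0 := by decide
  have n3 : (2 : Fin 3) ≠ 1 := by decide
  have hr : r = 0 ∨ r = 1 ∨ r = 2 := by fin_cases r <;> simp
  rcases hr with rfl | rfl | rfl <;> cases e <;>
    simp only [sg, gam, sub_zero, sub_self, e0, e1, e2, e3, n1, n2, n3, if_true, if_false,
      Bool.false_eq_true, neg_mul, one_mul]
  · simpa using h4 t ht0 ht1
  · simpa using h1 t ht0 ht1
  · simpa using h5 t ht0 ht1
  · simpa using h2 t ht0 ht1
  · simpa using h6 t ht0 ht1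
  · simpa using h3 t ht0 ht1

end MPee94
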