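import Mathlib

/-!
# Strictly antipodal sets in three dimensional space have at most five points (Grünbaum)
-/

set_option autoImplicit false
set_option linter.unusedVariables false
set_option linter.unusedTactic false
set_option linter.unreachableTactic false

namespace MPee94

open Finset

/-- `s` is orthogonal to the constants and, for every ordered pair `i ≠ j`, to a function that is
`0` at `i`, `1` at `j` and strictly between elsewhere. -/
def Good (s : Fin 6 → ℝ) : Prop :=
  (∑ k, s k = 0) ∧ ∀ i j, i ≠ j → ∃ a : Fin 6 → ℝ, a i = 0 ∧ a j = 1 ∧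
    (∀ k, k ≠ i → k ≠ j → 0 < a k ∧ a k < 1) ∧ ∑ k, s k * a k = 0

theorem Good.neg {s : Fin 6 → ℝ} (h : Good s) : Good (fun k => - s k) := by
  refine ⟨?_, fun i j hij => ?_⟩
  · rw [Finset.sum_neg_distrib, h.1, neg_zero]
  · obtain ⟨a, h1, h2, h3, h4⟩ := h.2 i j hij
    refine ⟨a, h1, h2, h3, ?_⟩
    simp only [neg_mul]
    rw [Finset.sum_neg_distrib, h4, neg_zero]

theorem bad_pos {s : Fin 6 → ℝ} (h : Good s) (p c : Fin 6) (hpc : p ≠ c) (hc : s c < 0)
    (ho : ∀ m, m ≠ p → s m ≤ 0) : False := by
  obtain ⟨a, h1, h2, h3, h4⟩ := h.2 p c hpc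
  have h5 : ∑ k, s k * a k < ∑ k : Fin 6, (0 : ℝ) := by
    apply Finset.sum_lt_sum
    · intro k _
      by_cases hk : k = p
      · rw [hk, h1, mul_zero]
      by_cases hk' : k = c
      · rw [hk', h2, mul_one]; exact hc.le
      · exact mul_nonpos_of_nonpos_of_nonneg (ho k hk) (h3 k hk hk').1.le
    · exact ⟨c, Finset.mem_univ _, by rw [h2, mul_one]; exact hc⟩
  rw [h4] at h5
  simp at h5

theorem bad_neg {s : Fin 6 → ℝ} (h : Good s) (p c : Fin 6) (hpc : p ≠ c) (hc : 0 < s c)
    (ho : ∀ m, m ≠ p → 0 ≤ s m) : False :=
  bad_pos h.neg p c hpc (by simpa using hc) (fun m hm => by simpa using ho m hm)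

theorem row_pos {s : Fin 6 → ℝ} (h : Good s) (p q c : Fin 6) (hpq : p ≠ q) (hpc : p ≠ c)
    (hqc : q ≠ c) (hp : 0 < s p) (ho : ∀ m, m ≠ p → m ≠ q → s m ≤ 0) : - s c < s p := by
  obtain ⟨a, h1, h2, h3, h4⟩ := h.2 q c hqc
  have h5 : ∑ k, s k * a k < ∑ k : Fin 6, ((if k = c then s c else 0) + if k = p then s p else 0) := by
    apply Finset.sum_lt_sum
    · intro k _
      by_cases hk : k = q
      · subst hk
        rw [h1, mul_zero, if_neg hqc, if_neg hpq.symm]
        simp
      by_cases hk' : k = c
      · subst hk'
        rw [h2, mul_one, if_pos rfl, if_neg hpc.symm]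
        simp
      by_cases hk'' : k = p
      · subst hk''
        rw [if_neg hk', if_pos rfl, zero_add]
        exact (mul_lt_of_lt_one_right hp (h3 k hk hk').2).le
      · rw [if_neg hk', if_neg hk'', zero_add]
        exact mul_nonpos_of_nonpos_of_nonneg (ho k hk'' hk) (h3 k hk hk').1.le
    · refine ⟨p, Finset.mem_univ _, ?_⟩
      rw [if_neg hpc, if_pos rfl, zero_add]
      exact mul_lt_of_lt_one_right hp (h3 p hpq hpc).2
  rw [h4, Finset.sum_add_distrib, Finset.sum_ite_eq' Finset.univ c, Finset.sum_ite_eq' Finset.univ p,
    if_pos (Finset.mem_univ _), if_pos (Finset.mem_univ _)] at h5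
  linarith

theorem row_neg {s : Fin 6 → ℝ} (h : Good s) (p q c : Fin 6) (hpq : p ≠ q) (hpc : p ≠ c)
    (hqc : q ≠ c) (hp : s p < 0) (ho : ∀ m, m ≠ p → m ≠ q → 0 ≤ s m) : s c < - s p := by
  have := row_pos h.neg p q c hpq hpc hqc (by simpa using hp)
    (fun m hm hm' => by simpa using ho m hm hm')
  simpa using this

theorem trip (x y z p q r : ℝ) (hx : 0 < x) (hy : 0 < y) (hz : 0 < z) (hp : 0 < p) (hq : 0 < q)
    (hr : 0 < r) (h1 : y * p < z * q) (h2 : x * q < y * r) (h3 : z * r < x * p) : False := by
  have h4 := mul_lt_mul'' h1 h2 (by positivity) (by positivity)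
  have h5 := mul_lt_mul'' h4 h3 (by positivity) (by positivity)
  have h6 : y * p * (x * q) * (z * r) = z * q * (y * r) * (x * p) := by ring
  linarith

theorem ptol (x y ac ab bd cd : ℝ) (hx : 0 < x) (hy : 0 < y) (h1 : 0 < ac) (h2 : 0 < ab)
    (h3 : 0 < bd) (h4 : 0 < cd) (hP : ab * cd ≤ ac * bd) (h5 : x * ac < y * ab)
    (h6 : y * bd < x * cd) : False := by
  have h7 := mul_lt_mul'' h5 h6 (by positivity) (by positivity)
  have h8 : x * ac * (y * bd) = (x * y) * (ac * bd) := by ring
  have h9 : y * ab * (x * cd) = (x * y) * (ab * cd) := by ring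
  have h10 := mul_le_mul_of_nonneg_left hP (mul_pos hx hy).le
  linarith

/-- The combinatorial core: weights `l k ≠ 0` at increasing points `θ k`. -/
theorem core (l θ : Fin 6 → ℝ) (h0 : ∀ k, l k ≠ 0) (hθ : StrictMono θ)
    (hG : ∀ k, Good (fun m => l m * (θ m - θ k))) : False := by
  have t01 : 0 < θ 1 - θ 0 := sub_pos.mpr (hθ (by decide))
  have t12 : 0 < θ 2 - θ 1 := sub_pos.mpr (hθ (by decide))
  have t23 : 0 < θ 3 - θ 2 := sub_pos.mpr (hθ (by decide))
  have t34 : 0 < θ 4 - θ 3 := sub_pos.mpr (hθ (by decide))
  have t45 : 0 < θ 5 - θ 4 := sub_pos.mpr (hθ (by decide))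
  rcases lt_or_gt_of_ne (h0 0) with n0 | n0
  · rcases lt_or_gt_of_ne (h0 1) with n1 | n1
    · rcases lt_or_gt_of_ne (h0 2) with n2 | n2
      · rcases lt_or_gt_of_ne (h0 3) with n3 | n3
        · rcases lt_or_gt_of_ne (h0 4) with n4 | n4
          · rcases lt_or_gt_of_ne (h0 5) with n5 | n5
            · exact bad_pos (hG 0) 0 1 (by decide) (by nlinarith) (by intro m hm; fin_cases m <;> first | exact absurd rfl hm | (simp only [Fin.reduceFinMk]; nlinarith))
            · exact bad_pos (hG 0) 5 1 (by decide) (by nlinarith) (by intro m hm; fin_cases m <;> first | exact absurd rfl hm | (simp only [Fin.reduceFinMk]; nlinarith))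
          · rcases lt_or_gt_of_ne (h0 5) with n5 | n5
            · exact bad_pos (hG 0) 4 1 (by decide) (by nlinarith) (by intro m hm; fin_cases m <;> first | exact absurd rfl hm | (simp only [Fin.reduceFinMk]; nlinarith))
            · exact bad_neg (hG 2) 3 0 (by decide) (by nlinarith) (by intro m hm; fin_cases m <;> first | exact absurd rfl hm | (simp only [Fin.reduceFinMk]; nlinarith))
        · rcases lt_or_gt_of_ne (h0 4) with n4 | n4
          · rcases lt_or_gt_of_ne (h0 5) with n5 | n5
            · exact bad_pos (hG 0) 3 1 (by decide) (by nlinarith) (by intro m hm; fin_cases m <;> first | exact absurd rfl hm | (simp only [Fin.reduceFinMk]; nlinarith))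
            · exact bad_neg (hG 2) 4 0 (by decide) (by nlinarith) (by intro m hm; fin_cases m <;> first | exact absurd rfl hm | (simp only [Fin.reduceFinMk]; nlinarith))
          · rcases lt_or_gt_of_ne (h0 5) with n5 | n5
            · exact bad_neg (hG 2) 5 0 (by decide) (by nlinarith) (by intro m hm; fin_cases m <;> first | exact absurd rfl hm | (simp only [Fin.reduceFinMk]; nlinarith))
            · exact bad_neg (hG 1) 2 0 (by decide) (by nlinarith) (by intro m hm; fin_cases m <;> first | exact absurd rfl hm | (simp only [Fin.reduceFinMk]; nlinarith))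
      · rcases lt_or_gt_of_ne (h0 3) with n3 | n3
        · rcases lt_or_gt_of_ne (h0 4) with n4 | n4
          · rcases lt_or_gt_of_ne (h0 5) with n5 | n5
            · exact bad_pos (hG 0) 2 1 (by decide) (by nlinarith) (by intro m hm; fin_cases m <;> first | exact absurd rfl hm | (simp only [Fin.reduceFinMk]; nlinarith))
            · exact bad_neg (hG 4) 2 0 (by decide) (by nlinarith) (by intro m hm; fin_cases m <;> first | exact absurd rfl hm | (simp only [Fin.reduceFinMk]; nlinarith))
          · rcases lt_or_gt_of_ne (h0 5) with n5 | n5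
            · have h1 := row_pos (hG 0) 4 2 3 (by decide) (by decide) (by decide) (by nlinarith) (by intro m hm hm'; fin_cases m <;> first | exact absurd rfl hm | exact absurd rfl hm' | (simp only [Fin.reduceFinMk]; nlinarith))
              have h1' : (-(l 3)) * (θ 3 - θ 0) < (l 4) * (θ 4 - θ 0) := by linarith
              have h2 := row_neg (hG 1) 3 5 4 (by decide) (by decide) (by decide) (by nlinarith) (by intro m hm hm'; fin_cases m <;> first | exact absurd rfl hm | exact absurd rfl hm' | (simp only [Fin.reduceFinMk]; nlinarith))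
              have h2' : (l 4) * (θ 4 - θ 1) < (-(l 3)) * (θ 3 - θ 1) := by linarith
              exact ptol (-(l 3)) (l 4) (θ 3 - θ 0) (θ 4 - θ 0) (θ 4 - θ 1) (θ 3 - θ 1) (by linarith) (by linarith) (by linarith) (by linarith) (by linarith) (by linarith) (by nlinarith) h1' h2'
            · exact bad_neg (hG 1) 3 0 (by decide) (by nlinarith) (by intro m hm; fin_cases m <;> first | exact absurd rfl hm | (simp only [Fin.reduceFinMk]; nlinarith))
        · rcases lt_or_gt_of_ne (h0 4) with n4 | n4
          · rcases lt_or_gt_of_ne (h0 5) with n5 | n5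
            · have h1 := row_pos (hG 0) 2 3 4 (by decide) (by decide) (by decide) (by nlinarith) (by intro m hm hm'; fin_cases m <;> first | exact absurd rfl hm | exact absurd rfl hm' | (simp only [Fin.reduceFinMk]; nlinarith))
              have h1' : (-(l 4)) * (θ 4 - θ 0) < (l 2) * (θ 2 - θ 0) := by linarith
              have h2 := row_neg (hG 2) 4 5 0 (by decide) (by decide) (by decide) (by nlinarith) (by intro m hm hm'; fin_cases m <;> first | exact absurd rfl hm | exact absurd rfl hm' | (simp only [Fin.reduceFinMk]; nlinarith))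
              have h2' : (-(l 0)) * (θ 2 - θ 0) < (-(l 4)) * (θ 4 - θ 2) := by linarith
              have h3 := row_pos (hG 4) 0 1 2 (by decide) (by decide) (by decide) (by nlinarith) (by intro m hm hm'; fin_cases m <;> first | exact absurd rfl hm | exact absurd rfl hm' | (simp only [Fin.reduceFinMk]; nlinarith))
              have h3' : (l 2) * (θ 4 - θ 2) < (-(l 0)) * (θ 4 - θ 0) := by linarith
              exact trip (-(l 0)) (-(l 4)) (l 2) (θ 4 - θ 0) (θ 2 - θ 0) (θ 4 - θ 2) (by linarith) (by linarith) (by linarith) (by linarith) (by linarith) (by linarith) h1' h2' h3'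
            · exact bad_neg (hG 1) 4 0 (by decide) (by nlinarith) (by intro m hm; fin_cases m <;> first | exact absurd rfl hm | (simp only [Fin.reduceFinMk]; nlinarith))
          · rcases lt_or_gt_of_ne (h0 5) with n5 | n5
            · exact bad_neg (hG 1) 5 0 (by decide) (by nlinarith) (by intro m hm; fin_cases m <;> first | exact absurd rfl hm | (simp only [Fin.reduceFinMk]; nlinarith))
            · exact bad_neg (hG 0) 1 2 (by decide) (by nlinarith) (by intro m hm; fin_cases m <;> first | exact absurd rfl hm | (simp only [Fin.reduceFinMk]; nlinarith))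
    · rcases lt_or_gt_of_ne (h0 2) with n2 | n2
      · rcases lt_or_gt_of_ne (h0 3) with n3 | n3
        · rcases lt_or_gt_of_ne (h0 4) with n4 | n4
          · rcases lt_or_gt_of_ne (h0 5) with n5 | n5
            · exact bad_pos (hG 0) 1 2 (by decide) (by nlinarith) (by intro m hm; fin_cases m <;> first | exact absurd rfl hm | (simp only [Fin.reduceFinMk]; nlinarith))
            · exact bad_neg (hG 4) 1 0 (by decide) (by nlinarith) (by intro m hm; fin_cases m <;> first | exact absurd rfl hm | (simp only [Fin.reduceFinMk]; nlinarith))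
          · rcases lt_or_gt_of_ne (h0 5) with n5 | n5
            · have h1 := row_pos (hG 1) 0 4 5 (by decide) (by decide) (by decide) (by nlinarith) (by intro m hm hm'; fin_cases m <;> first | exact absurd rfl hm | exact absurd rfl hm' | (simp only [Fin.reduceFinMk]; nlinarith))
              have h1' : (-(l 5)) * (θ 5 - θ 1) < (-(l 0)) * (θ 1 - θ 0) := by linarith
              have h2 := row_neg (hG 3) 5 1 0 (by decide) (by decide) (by decide) (by nlinarith) (by intro m hm hm'; fin_cases m <;> first | exact absurd rfl hm | exact absurd rfl hm' | (simp only [Fin.reduceFinMk]; nlinarith))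
              have h2' : (-(l 0)) * (θ 3 - θ 0) < (-(l 5)) * (θ 5 - θ 3) := by linarith
              exact ptol (-(l 5)) (-(l 0)) (θ 5 - θ 1) (θ 1 - θ 0) (θ 3 - θ 0) (θ 5 - θ 3) (by linarith) (by linarith) (by linarith) (by linarith) (by linarith) (by linarith) (by nlinarith) h1' h2'
            · exact bad_neg (hG 3) 1 0 (by decide) (by nlinarith) (by intro m hm; fin_cases m <;> first | exact absurd rfl hm | (simp only [Fin.reduceFinMk]; nlinarith))
        · rcases lt_or_gt_of_ne (h0 4) with n4 | n4
          · rcases lt_or_gt_of_ne (h0 5) with n5 | n5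
            · have h1 := row_pos (hG 0) 1 3 2 (by decide) (by decide) (by decide) (by nlinarith) (by intro m hm hm'; fin_cases m <;> first | exact absurd rfl hm | exact absurd rfl hm' | (simp only [Fin.reduceFinMk]; nlinarith))
              have h1' : (-(l 2)) * (θ 2 - θ 0) < (l 1) * (θ 1 - θ 0) := by linarith
              have h2 := row_pos (hG 3) 2 0 1 (by decide) (by decide) (by decide) (by nlinarith) (by intro m hm hm'; fin_cases m <;> first | exact absurd rfl hm | exact absurd rfl hm' | (simp only [Fin.reduceFinMk]; nlinarith))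
              have h2' : (l 1) * (θ 3 - θ 1) < (-(l 2)) * (θ 3 - θ 2) := by linarith
              exact ptol (-(l 2)) (l 1) (θ 2 - θ 0) (θ 1 - θ 0) (θ 3 - θ 1) (θ 3 - θ 2) (by linarith) (by linarith) (by linarith) (by linarith) (by linarith) (by linarith) (by nlinarith) h1' h2'
            · have h1 := row_neg (hG 0) 2 4 3 (by decide) (by decide) (by decide) (by nlinarith) (by intro m hm hm'; fin_cases m <;> first | exact absurd rfl hm | exact absurd rfl hm' | (simp only [Fin.reduceFinMk]; nlinarith))
              have h1' : (l 3) * (θ 3 - θ 0) < (-(l 2)) * (θ 2 - θ 0) := by linarith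
              have h2 := row_neg (hG 4) 3 1 2 (by decide) (by decide) (by decide) (by nlinarith) (by intro m hm hm'; fin_cases m <;> first | exact absurd rfl hm | exact absurd rfl hm' | (simp only [Fin.reduceFinMk]; nlinarith))
              have h2' : (-(l 2)) * (θ 4 - θ 2) < (l 3) * (θ 4 - θ 3) := by linarith
              exact ptol (l 3) (-(l 2)) (θ 3 - θ 0) (θ 2 - θ 0) (θ 4 - θ 2) (θ 4 - θ 3) (by linarith) (by linarith) (by linarith) (by linarith) (by linarith) (by linarith) (by nlinarith) h1' h2'
          · rcases lt_or_gt_of_ne (h0 5) with n5 | n5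
            · have h1 := row_neg (hG 2) 1 5 0 (by decide) (by decide) (by decide) (by nlinarith) (by intro m hm hm'; fin_cases m <;> first | exact absurd rfl hm | exact absurd rfl hm' | (simp only [Fin.reduceFinMk]; nlinarith))
              have h1' : (-(l 0)) * (θ 2 - θ 0) < (l 1) * (θ 2 - θ 1) := by linarith
              have h2 := row_pos (hG 4) 0 2 1 (by decide) (by decide) (by decide) (by nlinarith) (by intro m hm hm'; fin_cases m <;> first | exact absurd rfl hm | exact absurd rfl hm' | (simp only [Fin.reduceFinMk]; nlinarith))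
              have h2' : (l 1) * (θ 4 - θ 1) < (-(l 0)) * (θ 4 - θ 0) := by linarith
              exact ptol (-(l 0)) (l 1) (θ 2 - θ 0) (θ 2 - θ 1) (θ 4 - θ 1) (θ 4 - θ 0) (by linarith) (by linarith) (by linarith) (by linarith) (by linarith) (by linarith) (by nlinarith) h1' h2'
            · exact bad_neg (hG 0) 2 1 (by decide) (by nlinarith) (by intro m hm; fin_cases m <;> first | exact absurd rfl hm | (simp only [Fin.reduceFinMk]; nlinarith))
      · rcases lt_or_gt_of_ne (h0 3) with n3 | n3
        · rcases lt_or_gt_of_ne (h0 4) with n4 | n4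
          · rcases lt_or_gt_of_ne (h0 5) with n5 | n5
            · exact bad_pos (hG 2) 0 1 (by decide) (by nlinarith) (by intro m hm; fin_cases m <;> first | exact absurd rfl hm | (simp only [Fin.reduceFinMk]; nlinarith))
            · have h1 := row_neg (hG 0) 4 3 2 (by decide) (by decide) (by decide) (by nlinarith) (by intro m hm hm'; fin_cases m <;> first | exact absurd rfl hm | exact absurd rfl hm' | (simp only [Fin.reduceFinMk]; nlinarith))
              have h1' : (l 2) * (θ 2 - θ 0) < (-(l 4)) * (θ 4 - θ 0) := by linarith
              have h2 := row_neg (hG 4) 2 1 0 (by decide) (by decide) (by decide) (by nlinarith) (by intro m hm hm'; fin_cases m <;> first | exact absurd rfl hm | exact absurd rfl hm' | (simp only [Fin.reduceFinMk]; nlinarith))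
              have h2' : (-(l 0)) * (θ 4 - θ 0) < (l 2) * (θ 4 - θ 2) := by linarith
              have h3 := row_pos (hG 2) 0 5 4 (by decide) (by decide) (by decide) (by nlinarith) (by intro m hm hm'; fin_cases m <;> first | exact absurd rfl hm | exact absurd rfl hm' | (simp only [Fin.reduceFinMk]; nlinarith))
              have h3' : (-(l 4)) * (θ 4 - θ 2) < (-(l 0)) * (θ 2 - θ 0) := by linarith
              exact trip (-(l 0)) (l 2) (-(l 4)) (θ 2 - θ 0) (θ 4 - θ 0) (θ 4 - θ 2) (by linarith) (by linarith) (by linarith) (by linarith) (by linarith) (by linarith) h1' h2' h3'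
          · rcases lt_or_gt_of_ne (h0 5) with n5 | n5
            · have h1 := row_neg (hG 0) 5 3 4 (by decide) (by decide) (by decide) (by nlinarith) (by intro m hm hm'; fin_cases m <;> first | exact absurd rfl hm | exact absurd rfl hm' | (simp only [Fin.reduceFinMk]; nlinarith))
              have h1' : (l 4) * (θ 4 - θ 0) < (-(l 5)) * (θ 5 - θ 0) := by linarith
              have h2 := row_pos (hG 2) 4 0 5 (by decide) (by decide) (by decide) (by nlinarith) (by intro m hm hm'; fin_cases m <;> first | exact absurd rfl hm | exact absurd rfl hm' | (simp only [Fin.reduceFinMk]; nlinarith))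
              have h2' : (-(l 5)) * (θ 5 - θ 2) < (l 4) * (θ 4 - θ 2) := by linarith
              exact ptol (l 4) (-(l 5)) (θ 4 - θ 0) (θ 5 - θ 0) (θ 5 - θ 2) (θ 4 - θ 2) (by linarith) (by linarith) (by linarith) (by linarith) (by linarith) (by linarith) (by nlinarith) h1' h2'
            · exact bad_neg (hG 0) 3 1 (by decide) (by nlinarith) (by intro m hm; fin_cases m <;> first | exact absurd rfl hm | (simp only [Fin.reduceFinMk]; nlinarith))
        · rcases lt_or_gt_of_ne (h0 4) with n4 | n4
          · rcases lt_or_gt_of_ne (h0 5) with n5 | n5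
            · exact bad_pos (hG 3) 0 1 (by decide) (by nlinarith) (by intro m hm; fin_cases m <;> first | exact absurd rfl hm | (simp only [Fin.reduceFinMk]; nlinarith))
            · exact bad_neg (hG 0) 4 1 (by decide) (by nlinarith) (by intro m hm; fin_cases m <;> first | exact absurd rfl hm | (simp only [Fin.reduceFinMk]; nlinarith))
          · rcases lt_or_gt_of_ne (h0 5) with n5 | n5
            · exact bad_neg (hG 0) 5 1 (by decide) (by nlinarith) (by intro m hm; fin_cases m <;> first | exact absurd rfl hm | (simp only [Fin.reduceFinMk]; nlinarith))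
            · exact bad_neg (hG 0) 0 1 (by decide) (by nlinarith) (by intro m hm; fin_cases m <;> first | exact absurd rfl hm | (simp only [Fin.reduceFinMk]; nlinarith))
  · rcases lt_or_gt_of_ne (h0 1) with n1 | n1
    · rcases lt_or_gt_of_ne (h0 2) with n2 | n2
      · rcases lt_or_gt_of_ne (h0 3) with n3 | n3
        · rcases lt_or_gt_of_ne (h0 4) with n4 | n4
          · rcases lt_or_gt_of_ne (h0 5) with n5 | n5
            · exact bad_pos (hG 0) 0 1 (by decide) (by nlinarith) (by intro m hm; fin_cases m <;> first | exact absurd rfl hm | (simp only [Fin.reduceFinMk]; nlinarith))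
            · exact bad_pos (hG 0) 5 1 (by decide) (by nlinarith) (by intro m hm; fin_cases m <;> first | exact absurd rfl hm | (simp only [Fin.reduceFinMk]; nlinarith))
          · rcases lt_or_gt_of_ne (h0 5) with n5 | n5
            · exact bad_pos (hG 0) 4 1 (by decide) (by nlinarith) (by intro m hm; fin_cases m <;> first | exact absurd rfl hm | (simp only [Fin.reduceFinMk]; nlinarith))
            · exact bad_neg (hG 3) 0 1 (by decide) (by nlinarith) (by intro m hm; fin_cases m <;> first | exact absurd rfl hm | (simp only [Fin.reduceFinMk]; nlinarith))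
        · rcases lt_or_gt_of_ne (h0 4) with n4 | n4
          · rcases lt_or_gt_of_ne (h0 5) with n5 | n5
            · exact bad_pos (hG 0) 3 1 (by decide) (by nlinarith) (by intro m hm; fin_cases m <;> first | exact absurd rfl hm | (simp only [Fin.reduceFinMk]; nlinarith))
            · have h1 := row_pos (hG 0) 5 3 4 (by decide) (by decide) (by decide) (by nlinarith) (by intro m hm hm'; fin_cases m <;> first | exact absurd rfl hm | exact absurd rfl hm' | (simp only [Fin.reduceFinMk]; nlinarith))
              have h1' : (-(l 4)) * (θ 4 - θ 0) < (l 5) * (θ 5 - θ 0) := by linarith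
              have h2 := row_neg (hG 2) 4 0 5 (by decide) (by decide) (by decide) (by nlinarith) (by intro m hm hm'; fin_cases m <;> first | exact absurd rfl hm | exact absurd rfl hm' | (simp only [Fin.reduceFinMk]; nlinarith))
              have h2' : (l 5) * (θ 5 - θ 2) < (-(l 4)) * (θ 4 - θ 2) := by linarith
              exact ptol (-(l 4)) (l 5) (θ 4 - θ 0) (θ 5 - θ 0) (θ 5 - θ 2) (θ 4 - θ 2) (by linarith) (by linarith) (by linarith) (by linarith) (by linarith) (by linarith) (by nlinarith) h1' h2'
          · rcases lt_or_gt_of_ne (h0 5) with n5 | n5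
            · have h1 := row_pos (hG 0) 4 3 2 (by decide) (by decide) (by decide) (by nlinarith) (by intro m hm hm'; fin_cases m <;> first | exact absurd rfl hm | exact absurd rfl hm' | (simp only [Fin.reduceFinMk]; nlinarith))
              have h1' : (-(l 2)) * (θ 2 - θ 0) < (l 4) * (θ 4 - θ 0) := by linarith
              have h2 := row_pos (hG 4) 2 1 0 (by decide) (by decide) (by decide) (by nlinarith) (by intro m hm hm'; fin_cases m <;> first | exact absurd rfl hm | exact absurd rfl hm' | (simp only [Fin.reduceFinMk]; nlinarith))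
              have h2' : (l 0) * (θ 4 - θ 0) < (-(l 2)) * (θ 4 - θ 2) := by linarith
              have h3 := row_neg (hG 2) 0 5 4 (by decide) (by decide) (by decide) (by nlinarith) (by intro m hm hm'; fin_cases m <;> first | exact absurd rfl hm | exact absurd rfl hm' | (simp only [Fin.reduceFinMk]; nlinarith))
              have h3' : (l 4) * (θ 4 - θ 2) < (l 0) * (θ 2 - θ 0) := by linarith
              exact trip (l 0) (-(l 2)) (l 4) (θ 2 - θ 0) (θ 4 - θ 0) (θ 4 - θ 2) (by linarith) (by linarith) (by linarith) (by linarith) (by linarith) (by linarith) h1' h2' h3'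
            · exact bad_neg (hG 2) 0 1 (by decide) (by nlinarith) (by intro m hm; fin_cases m <;> first | exact absurd rfl hm | (simp only [Fin.reduceFinMk]; nlinarith))
      · rcases lt_or_gt_of_ne (h0 3) with n3 | n3
        · rcases lt_or_gt_of_ne (h0 4) with n4 | n4
          · rcases lt_or_gt_of_ne (h0 5) with n5 | n5
            · exact bad_pos (hG 0) 2 1 (by decide) (by nlinarith) (by intro m hm; fin_cases m <;> first | exact absurd rfl hm | (simp only [Fin.reduceFinMk]; nlinarith))
            · have h1 := row_pos (hG 2) 1 5 0 (by decide) (by decide) (by decide) (by nlinarith) (by intro m hm hm'; fin_cases m <;> first | exact absurd rfl hm | exact absurd rfl hm' | (simp only [Fin.reduceFinMk]; nlinarith))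
              have h1' : (l 0) * (θ 2 - θ 0) < (-(l 1)) * (θ 2 - θ 1) := by linarith
              have h2 := row_neg (hG 4) 0 2 1 (by decide) (by decide) (by decide) (by nlinarith) (by intro m hm hm'; fin_cases m <;> first | exact absurd rfl hm | exact absurd rfl hm' | (simp only [Fin.reduceFinMk]; nlinarith))
              have h2' : (-(l 1)) * (θ 4 - θ 1) < (l 0) * (θ 4 - θ 0) := by linarith
              exact ptol (l 0) (-(l 1)) (θ 2 - θ 0) (θ 2 - θ 1) (θ 4 - θ 1) (θ 4 - θ 0) (by linarith) (by linarith) (by linarith) (by linarith) (by linarith) (by linarith) (by nlinarith) h1' h2'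
          · rcases lt_or_gt_of_ne (h0 5) with n5 | n5
            · have h1 := row_pos (hG 0) 2 4 3 (by decide) (by decide) (by decide) (by nlinarith) (by intro m hm hm'; fin_cases m <;> first | exact absurd rfl hm | exact absurd rfl hm' | (simp only [Fin.reduceFinMk]; nlinarith))
              have h1' : (-(l 3)) * (θ 3 - θ 0) < (l 2) * (θ 2 - θ 0) := by linarith
              have h2 := row_pos (hG 4) 3 1 2 (by decide) (by decide) (by decide) (by nlinarith) (by intro m hm hm'; fin_cases m <;> first | exact absurd rfl hm | exact absurd rfl hm' | (simp only [Fin.reduceFinMk]; nlinarith))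
              have h2' : (l 2) * (θ 4 - θ 2) < (-(l 3)) * (θ 4 - θ 3) := by linarith
              exact ptol (-(l 3)) (l 2) (θ 3 - θ 0) (θ 2 - θ 0) (θ 4 - θ 2) (θ 4 - θ 3) (by linarith) (by linarith) (by linarith) (by linarith) (by linarith) (by linarith) (by nlinarith) h1' h2'
            · have h1 := row_neg (hG 0) 1 3 2 (by decide) (by decide) (by decide) (by nlinarith) (by intro m hm hm'; fin_cases m <;> first | exact absurd rfl hm | exact absurd rfl hm' | (simp only [Fin.reduceFinMk]; nlinarith))
              have h1' : (l 2) * (θ 2 - θ 0) < (-(l 1)) * (θ 1 - θ 0) := by linarith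
              have h2 := row_neg (hG 3) 2 0 1 (by decide) (by decide) (by decide) (by nlinarith) (by intro m hm hm'; fin_cases m <;> first | exact absurd rfl hm | exact absurd rfl hm' | (simp only [Fin.reduceFinMk]; nlinarith))
              have h2' : (-(l 1)) * (θ 3 - θ 1) < (l 2) * (θ 3 - θ 2) := by linarith
              exact ptol (l 2) (-(l 1)) (θ 2 - θ 0) (θ 1 - θ 0) (θ 3 - θ 1) (θ 3 - θ 2) (by linarith) (by linarith) (by linarith) (by linarith) (by linarith) (by linarith) (by nlinarith) h1' h2'
        · rcases lt_or_gt_of_ne (h0 4) with n4 | n4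
          · rcases lt_or_gt_of_ne (h0 5) with n5 | n5
            · exact bad_pos (hG 3) 1 0 (by decide) (by nlinarith) (by intro m hm; fin_cases m <;> first | exact absurd rfl hm | (simp only [Fin.reduceFinMk]; nlinarith))
            · have h1 := row_neg (hG 1) 0 4 5 (by decide) (by decide) (by decide) (by nlinarith) (by intro m hm hm'; fin_cases m <;> first | exact absurd rfl hm | exact absurd rfl hm' | (simp only [Fin.reduceFinMk]; nlinarith))
              have h1' : (l 5) * (θ 5 - θ 1) < (l 0) * (θ 1 - θ 0) := by linarith
              have h2 := row_pos (hG 3) 5 1 0 (by decide) (by decide) (by decide) (by nlinarith) (by intro m hm hm'; fin_cases m <;> first | exact absurd rfl hm | exact absurd rfl hm' | (simp only [Fin.reduceFinMk]; nlinarith))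
              have h2' : (l 0) * (θ 3 - θ 0) < (l 5) * (θ 5 - θ 3) := by linarith
              exact ptol (l 5) (l 0) (θ 5 - θ 1) (θ 1 - θ 0) (θ 3 - θ 0) (θ 5 - θ 3) (by linarith) (by linarith) (by linarith) (by linarith) (by linarith) (by linarith) (by nlinarith) h1' h2'
          · rcases lt_or_gt_of_ne (h0 5) with n5 | n5
            · exact bad_pos (hG 4) 1 0 (by decide) (by nlinarith) (by intro m hm; fin_cases m <;> first | exact absurd rfl hm | (simp only [Fin.reduceFinMk]; nlinarith))
            · exact bad_neg (hG 0) 1 2 (by decide) (by nlinarith) (by intro m hm; fin_cases m <;> first | exact absurd rfl hm | (simp only [Fin.reduceFinMk]; nlinarith))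
    · rcases lt_or_gt_of_ne (h0 2) with n2 | n2
      · rcases lt_or_gt_of_ne (h0 3) with n3 | n3
        · rcases lt_or_gt_of_ne (h0 4) with n4 | n4
          · rcases lt_or_gt_of_ne (h0 5) with n5 | n5
            · exact bad_pos (hG 0) 1 2 (by decide) (by nlinarith) (by intro m hm; fin_cases m <;> first | exact absurd rfl hm | (simp only [Fin.reduceFinMk]; nlinarith))
            · exact bad_pos (hG 1) 5 0 (by decide) (by nlinarith) (by intro m hm; fin_cases m <;> first | exact absurd rfl hm | (simp only [Fin.reduceFinMk]; nlinarith))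
          · rcases lt_or_gt_of_ne (h0 5) with n5 | n5
            · exact bad_pos (hG 1) 4 0 (by decide) (by nlinarith) (by intro m hm; fin_cases m <;> first | exact absurd rfl hm | (simp only [Fin.reduceFinMk]; nlinarith))
            · have h1 := row_neg (hG 0) 2 3 4 (by decide) (by decide) (by decide) (by nlinarith) (by intro m hm hm'; fin_cases m <;> first | exact absurd rfl hm | exact absurd rfl hm' | (simp only [Fin.reduceFinMk]; nlinarith))
              have h1' : (l 4) * (θ 4 - θ 0) < (-(l 2)) * (θ 2 - θ 0) := by linarith
              have h2 := row_pos (hG 2) 4 5 0 (by decide) (by decide) (by decide) (by nlinarith) (by intro m hm hm'; fin_cases m <;> first | exact absurd rfl hm | exact absurd rfl hm' | (simp only [Fin.reduceFinMk]; nlinarith))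
              have h2' : (l 0) * (θ 2 - θ 0) < (l 4) * (θ 4 - θ 2) := by linarith
              have h3 := row_neg (hG 4) 0 1 2 (by decide) (by decide) (by decide) (by nlinarith) (by intro m hm hm'; fin_cases m <;> first | exact absurd rfl hm | exact absurd rfl hm' | (simp only [Fin.reduceFinMk]; nlinarith))
              have h3' : (-(l 2)) * (θ 4 - θ 2) < (l 0) * (θ 4 - θ 0) := by linarith
              exact trip (l 0) (l 4) (-(l 2)) (θ 4 - θ 0) (θ 2 - θ 0) (θ 4 - θ 2) (by linarith) (by linarith) (by linarith) (by linarith) (by linarith) (by linarith) h1' h2' h3'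
        · rcases lt_or_gt_of_ne (h0 4) with n4 | n4
          · rcases lt_or_gt_of_ne (h0 5) with n5 | n5
            · exact bad_pos (hG 1) 3 0 (by decide) (by nlinarith) (by intro m hm; fin_cases m <;> first | exact absurd rfl hm | (simp only [Fin.reduceFinMk]; nlinarith))
            · have h1 := row_neg (hG 0) 4 2 3 (by decide) (by decide) (by decide) (by nlinarith) (by intro m hm hm'; fin_cases m <;> first | exact absurd rfl hm | exact absurd rfl hm' | (simp only [Fin.reduceFinMk]; nlinarith))
              have h1' : (l 3) * (θ 3 - θ 0) < (-(l 4)) * (θ 4 - θ 0) := by linarith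
              have h2 := row_pos (hG 1) 3 5 4 (by decide) (by decide) (by decide) (by nlinarith) (by intro m hm hm'; fin_cases m <;> first | exact absurd rfl hm | exact absurd rfl hm' | (simp only [Fin.reduceFinMk]; nlinarith))
              have h2' : (-(l 4)) * (θ 4 - θ 1) < (l 3) * (θ 3 - θ 1) := by linarith
              exact ptol (l 3) (-(l 4)) (θ 3 - θ 0) (θ 4 - θ 0) (θ 4 - θ 1) (θ 3 - θ 1) (by linarith) (by linarith) (by linarith) (by linarith) (by linarith) (by linarith) (by nlinarith) h1' h2'
          · rcases lt_or_gt_of_ne (h0 5) with n5 | n5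
            · exact bad_pos (hG 4) 2 0 (by decide) (by nlinarith) (by intro m hm; fin_cases m <;> first | exact absurd rfl hm | (simp only [Fin.reduceFinMk]; nlinarith))
            · exact bad_neg (hG 0) 2 1 (by decide) (by nlinarith) (by intro m hm; fin_cases m <;> first | exact absurd rfl hm | (simp only [Fin.reduceFinMk]; nlinarith))
      · rcases lt_or_gt_of_ne (h0 3) with n3 | n3
        · rcases lt_or_gt_of_ne (h0 4) with n4 | n4
          · rcases lt_or_gt_of_ne (h0 5) with n5 | n5
            · exact bad_pos (hG 1) 2 0 (by decide) (by nlinarith) (by intro m hm; fin_cases m <;> first | exact absurd rfl hm | (simp only [Fin.reduceFinMk]; nlinarith))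
            · exact bad_pos (hG 2) 5 0 (by decide) (by nlinarith) (by intro m hm; fin_cases m <;> first | exact absurd rfl hm | (simp only [Fin.reduceFinMk]; nlinarith))
          · rcases lt_or_gt_of_ne (h0 5) with n5 | n5
            · exact bad_pos (hG 2) 4 0 (by decide) (by nlinarith) (by intro m hm; fin_cases m <;> first | exact absurd rfl hm | (simp only [Fin.reduceFinMk]; nlinarith))
            · exact bad_neg (hG 0) 3 1 (by decide) (by nlinarith) (by intro m hm; fin_cases m <;> first | exact absurd rfl hm | (simp only [Fin.reduceFinMk]; nlinarith))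
        · rcases lt_or_gt_of_ne (h0 4) with n4 | n4
          · rcases lt_or_gt_of_ne (h0 5) with n5 | n5
            · exact bad_pos (hG 2) 3 0 (by decide) (by nlinarith) (by intro m hm; fin_cases m <;> first | exact absurd rfl hm | (simp only [Fin.reduceFinMk]; nlinarith))
            · exact bad_neg (hG 0) 4 1 (by decide) (by nlinarith) (by intro m hm; fin_cases m <;> first | exact absurd rfl hm | (simp only [Fin.reduceFinMk]; nlinarith))
          · rcases lt_or_gt_of_ne (h0 5) with n5 | n5
            · exact bad_neg (hG 0) 5 1 (by decide) (by nlinarith) (by intro m hm; fin_cases m <;> first | exact absurd rfl hm | (simp only [Fin.reduceFinMk]; nlinarith))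
            · exact bad_neg (hG 0) 0 1 (by decide) (by nlinarith) (by intro m hm; fin_cases m <;> first | exact absurd rfl hm | (simp only [Fin.reduceFinMk]; nlinarith))

end MPee94
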