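import Mathlib
import Pool.Agent.Lib.MP_ee94a4_gt.Core

/-!
# Grünbaum's theorem: strictly antipodal sets in three dimensional space have at most 5 points
-/

set_option autoImplicit false

namespace MPee94

open Finset

theorem Good.lin {s t : Fin 6 → ℝ} (α β : ℝ)
    (h : ∀ i j, i ≠ j → ∃ a : Fin 6 → ℝ, a i = 0 ∧ a j = 1 ∧
      (∀ k, k ≠ i → k ≠ j → 0 < a k ∧ a k < 1) ∧ ∑ k, s k * a k = 0 ∧ ∑ k, t k * a k = 0)
    (hs : ∑ k, s k = 0) (ht : ∑ k, t k = 0) : Good (fun k => α * s k + β * t k) := by
  refine ⟨?_, fun i j hij => ?_⟩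
  · rw [Finset.sum_add_distrib, ← Finset.mul_sum, ← Finset.mul_sum, hs, ht]; simp
  · obtain ⟨a, h1, h2, h3, h4, h5⟩ := h i j hij
    refine ⟨a, h1, h2, h3, ?_⟩
    have : ∀ k, (α * s k + β * t k) * a k = α * (s k * a k) + β * (t k * a k) := fun k => by ring
    rw [Finset.sum_congr rfl fun k _ => this k, Finset.sum_add_distrib, ← Finset.mul_sum,
      ← Finset.mul_sum, h4, h5]
    simp

/-- A nonzero admissible vector has at most one vanishing coordinate. -/
theorem Good.two_zeros {s : Fin 6 → ℝ} (h : Good s) (hs : s ≠ 0) {i j : Fin 6} (hij : i ≠ j)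
    (hi : s i = 0) (hj : s j = 0) : False := by
  classical
  obtain ⟨p, -, hp⟩ := Finset.exists_max_image Finset.univ s ⟨i, Finset.mem_univ _⟩
  obtain ⟨c, -, hc⟩ := Finset.exists_min_image Finset.univ s ⟨i, Finset.mem_univ _⟩
  have hp' : ∀ k, s k ≤ s p := fun k => hp k (Finset.mem_univ _)
  have hc' : ∀ k, s c ≤ s k := fun k => hc k (Finset.mem_univ _)
  have hppos : 0 < s p := by
    by_contra hcon
    push Not at hcon
    apply hs
    funext k
    have hall : ∀ k ∈ Finset.univ, s k ≤ 0 := fun k _ => (hp' k).trans hcon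
    exact (Finset.sum_eq_zero_iff_of_nonpos hall).mp h.1 k (Finset.mem_univ _)
  have hcneg : s c < 0 := by
    by_contra hcon
    push Not at hcon
    apply hs
    funext k
    have hall : ∀ k ∈ Finset.univ, 0 ≤ s k := fun k _ => hcon.trans (hc' k)
    exact (Finset.sum_eq_zero_iff_of_nonneg hall).mp h.1 k (Finset.mem_univ _)
  have hpc : p ≠ c := by rintro rfl; linarith
  -- positive and negative parts
  set P := Finset.univ.filter (fun k => 0 < s k) with hP
  set N := Finset.univ.filter (fun k => s k < 0) with hN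
  have hPN : Disjoint P N := by
    rw [Finset.disjoint_left]
    intro k hk hk'
    rw [hP, Finset.mem_filter] at hk
    rw [hN, Finset.mem_filter] at hk'
    linarith [hk.2, hk'.2]
  have hcard : P.card + N.card ≤ 4 := by
    rw [← Finset.card_union_of_disjoint hPN]
    have hsub : P ∪ N ⊆ (Finset.univ.erase i).erase j := by
      intro k hk
      rw [Finset.mem_erase, Finset.mem_erase]
      rw [Finset.mem_union, hP, hN, Finset.mem_filter, Finset.mem_filter] at hk
      refine ⟨?_, ?_, Finset.mem_univ _⟩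
      · rintro rfl
        rcases hk with hk | hk <;> linarith [hk.2]
      · rintro rfl
        rcases hk with hk | hk <;> linarith [hk.2]
    calc (P ∪ N).card ≤ ((Finset.univ.erase i).erase j).card := Finset.card_le_card hsub
      _ = 4 := by
        rw [Finset.card_erase_of_mem (by simp [hij.symm]), Finset.card_erase_of_mem (Finset.mem_univ _)]
        simp
  set M := ∑ k, max (s k) 0 with hM
  have hMP : M = ∑ k ∈ P, s k := by
    rw [hM, hP, Finset.sum_filter]
    apply Finset.sum_congr rfl
    intro k _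
    split_ifs with hk
    · exact max_eq_left hk.le
    · exact max_eq_right (not_lt.mp hk)
  have hMN : M = ∑ k ∈ N, (- s k) := by
    have h1 : ∑ k, max (s k) 0 - ∑ k, max (- s k) 0 = ∑ k, s k := by
      rw [← Finset.sum_sub_distrib]
      apply Finset.sum_congr rfl
      intro k _
      rcases le_total (s k) 0 with hk | hk
      · rw [max_eq_right hk, max_eq_left (by linarith)]; ring
      · rw [max_eq_left hk, max_eq_right (by linarith)]; ring
    rw [h.1] at h1
    have h2 : ∑ k, max (- s k) 0 = ∑ k ∈ N, (- s k) := by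
      rw [hN, Finset.sum_filter]
      apply Finset.sum_congr rfl
      intro k _
      split_ifs with hk
      · exact max_eq_left (by linarith)
      · exact max_eq_right (by linarith [not_lt.mp hk])
    rw [hM]; linarith
  have hMle1 : M ≤ P.card * s p := by
    rw [hMP]
    have := Finset.sum_le_card_nsmul P s (s p) (fun k _ => hp' k)
    simpa [nsmul_eq_mul] using this
  have hMle2 : M ≤ N.card * (- s c) := by
    rw [hMN]
    have := Finset.sum_le_card_nsmul N (fun k => - s k) (- s c) (fun k _ => by linarith [hc' k])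
    simpa [nsmul_eq_mul] using this
  -- the key strict inequality
  obtain ⟨a, h1, h2, h3, h4⟩ := h.2 p c hpc
  have key : s p - s c < M := by
    -- sum over `k` of `s k * a k` against `max (s k) 0` away from `p, c`
    have h5 : ∀ k, s k * a k ≤ (if k = c then s c else 0) + (if k = p then - s p else 0)
        + max (s k) 0 := by
      intro k
      by_cases hk : k = p
      · subst hk
        rw [h1, mul_zero, if_neg hpc, if_pos rfl, max_eq_left hppos.le]; linarith
      by_cases hk' : k = c
      · subst hk'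
        rw [h2, mul_one, if_pos rfl, if_neg hpc.symm, max_eq_right hcneg.le]; linarith
      rw [if_neg hk, if_neg hk', zero_add, zero_add]
      obtain ⟨h6, h7⟩ := h3 k hk hk'
      rcases le_total (s k) 0 with hk0 | hk0
      · rw [max_eq_right hk0]; exact mul_nonpos_of_nonpos_of_nonneg hk0 h6.le
      · rw [max_eq_left hk0]; exact mul_le_of_le_one_right hk0 h7.le
    -- some other coordinate is nonzero
    obtain ⟨m, hmp, hmc, hm0⟩ : ∃ m, m ≠ p ∧ m ≠ c ∧ s m ≠ 0 := by
      by_contra hcon
      push Not at hcon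
      have h8 : ∑ k, s k * a k = ∑ k : Fin 6, (if k = c then s c else 0) := by
        apply Finset.sum_congr rfl
        intro k _
        by_cases hk : k = p
        · subst hk; rw [h1, mul_zero, if_neg hpc]
        by_cases hk' : k = c
        · subst hk'; rw [h2, mul_one, if_pos rfl]
        rw [if_neg hk', hcon k hk hk', zero_mul]
      rw [h4, Finset.sum_ite_eq' Finset.univ c, if_pos (Finset.mem_univ _)] at h8
      linarith
    have h9 : ∑ k, s k * a k < ∑ k : Fin 6, ((if k = c then s c else 0) +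
        (if k = p then - s p else 0) + max (s k) 0) := by
      apply Finset.sum_lt_sum (fun k _ => h5 k)
      refine ⟨m, Finset.mem_univ _, ?_⟩
      rw [if_neg hmp, if_neg hmc, zero_add, zero_add]
      obtain ⟨h6, h7⟩ := h3 m hmp hmc
      rcases lt_or_gt_of_ne hm0 with hk0 | hk0
      · rw [max_eq_right hk0.le]; exact mul_neg_of_neg_of_pos hk0 h6
      · rw [max_eq_left hk0.le]; exact mul_lt_of_lt_one_right hk0 h7
    rw [h4, Finset.sum_add_distrib, Finset.sum_add_distrib, Finset.sum_ite_eq' Finset.univ c,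
      Finset.sum_ite_eq' Finset.univ p, if_pos (Finset.mem_univ _), if_pos (Finset.mem_univ _)] at h9
    linarith
  -- conclude by counting
  have hPc : P.card ≤ 1 ∨ N.card ≤ 1 ∨ (P.card = 2 ∧ N.card = 2) := by omega
  rcases hPc with h5 | h5 | ⟨h5, h6⟩
  · have : (P.card : ℝ) ≤ 1 := by exact_mod_cast h5
    nlinarith
  · have : (N.card : ℝ) ≤ 1 := by exact_mod_cast h5
    nlinarith
  · rw [h5] at hMle1
    rw [h6] at hMle2
    push_cast at hMle1 hMle2
    linarith

/-- Six points: `u, v` independent admissible vectors are impossible. -/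
theorem no_six (u v : Fin 6 → ℝ) (hlin : ∀ α β : ℝ, (∀ k, α * u k + β * v k = 0) → α = 0 ∧ β = 0)
    (hu : ∑ k, u k = 0) (hv : ∑ k, v k = 0)
    (h : ∀ i j, i ≠ j → ∃ a : Fin 6 → ℝ, a i = 0 ∧ a j = 1 ∧
      (∀ k, k ≠ i → k ≠ j → 0 < a k ∧ a k < 1) ∧ ∑ k, u k * a k = 0 ∧ ∑ k, v k * a k = 0) :
    False := by
  classical
  -- no nontrivial combination vanishes at two indices
  have h2 : ∀ (α β : ℝ) (i j : Fin 6), i ≠ j → α * u i + β * v i = 0 → α * u j + β * v j = 0 →
      α = 0 ∧ β = 0 := by
    intro α β i j hij hi hj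
    by_contra hcon
    have hg := Good.lin α β h hu hv
    refine hg.two_zeros ?_ hij hi hj
    intro h0
    exact hcon (hlin α β (fun k => congrFun h0 k))
  have hne : ∀ k, ¬ (u k = 0 ∧ v k = 0) := by
    rintro k ⟨hk1, hk2⟩
    obtain ⟨m, hm⟩ : ∃ m : Fin 6, m ≠ k := exists_ne k
    have h3 := h2 (- v m) (u m) k m hm.symm (by rw [hk1, hk2]; ring) (by ring)
    have h4 := h2 1 0 k m hm.symm (by rw [hk1, hk2]; ring) (by rw [h3.2]; ring)
    exact one_ne_zero h4.1
  -- a combination without zero coordinate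
  obtain ⟨t, ht⟩ : ∃ t : ℝ, ∀ k, u k + t * v k ≠ 0 := by
    have hfin : (⋃ k : Fin 6, {t : ℝ | u k + t * v k = 0}).Finite := by
      apply Set.finite_iUnion
      intro k
      apply Set.Subsingleton.finite
      intro t ht t' ht'
      simp only [Set.mem_ofPred_eq] at ht ht'
      have h3 : (t - t') * v k = 0 := by linear_combination ht - ht'
      rcases mul_eq_zero.mp h3 with h4 | h4
      · linarith
      · exfalso
        apply hne k
        rw [h4, mul_zero, add_zero] at ht
        exact ⟨ht, h4⟩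
    obtain ⟨t, ht⟩ := hfin.infinite_compl.nonempty
    refine ⟨t, fun k hk => ht ?_⟩
    rw [Set.mem_iUnion]
    exact ⟨k, hk⟩
  set l : Fin 6 → ℝ := fun k => u k + t * v k with hl
  set θ : Fin 6 → ℝ := fun k => v k / l k with hθ
  have hinj : Function.Injective θ := by
    intro i j hij
    by_contra hne'
    simp only [hθ] at hij
    -- `v - θ_i l` vanishes at `i` and `j`
    have h3 := h2 (- (v i / l i)) (1 - (v i / l i) * t) i j hne' (by
        have : v i / l i * l i = v i := div_mul_cancel₀ _ (ht i)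
        simp only [hl] at this ⊢
        linear_combination (-1 : ℝ) * this) (by
        have h4 : v j / l j * l j = v j := div_mul_cancel₀ _ (ht j)
        rw [← hij] at h4
        simp only [hl] at h4 ⊢
        linear_combination (-1 : ℝ) * h4)
    have h5 : v i / l i = 0 := by linarith [h3.1]
    have h6 := h3.2
    rw [h5] at h6
    norm_num at h6
  -- sort
  obtain ⟨σ, hσ⟩ : ∃ σ : Equiv.Perm (Fin 6), StrictMono (θ ∘ σ) := by
    refine ⟨Tuple.sort θ, ?_⟩
    exact (Tuple.monotone_sort θ).strictMono_of_injective (hinj.comp (Equiv.injective _))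
  refine core (l ∘ σ) (θ ∘ σ) (fun k => ht (σ k)) hσ (fun k => ?_)
  have hvl : ∀ m, v m = l m * θ m := by
    intro m
    simp only [hθ]
    rw [mul_div_cancel₀]
    exact ht m
  have hlsum : ∑ m, l m = 0 := by
    simp only [hl]
    rw [Finset.sum_add_distrib, ← Finset.mul_sum, hu, hv]; simp
  have hlvsum : ∑ m, l m * θ m = 0 := by
    rw [← hv]
    exact Finset.sum_congr rfl fun m _ => (hvl m).symm
  refine ⟨?_, fun i j hij => ?_⟩
  · have h3 : ∑ m, (l ∘ σ) m * ((θ ∘ σ) m - (θ ∘ σ) k) = ∑ m, l m * (θ m - θ (σ k)) :=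
      Equiv.sum_comp σ (fun m => l m * (θ m - θ (σ k)))
    rw [h3]
    have h4 : ∀ m, l m * (θ m - θ (σ k)) = l m * θ m - θ (σ k) * l m := fun m => by ring
    rw [Finset.sum_congr rfl fun m _ => h4 m, Finset.sum_sub_distrib, ← Finset.mul_sum, hlsum,
      hlvsum]
    simp
  · obtain ⟨a, h3, h4, h5, h6, h7⟩ := h (σ i) (σ j) (fun h => hij (σ.injective h))
    refine ⟨a ∘ σ, h3, h4, fun m hm hm' => h5 (σ m) (fun h => hm (σ.injective h))
      (fun h => hm' (σ.injective h)), ?_⟩
    have h8 : ∑ m, (l ∘ σ) m * ((θ ∘ σ) m - (θ ∘ σ) k) * (a ∘ σ) m =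
        ∑ m, l m * (θ m - θ (σ k)) * a m :=
      Equiv.sum_comp σ (fun m => l m * (θ m - θ (σ k)) * a m)
    rw [h8]
    have h9 : ∀ m, l m * (θ m - θ (σ k)) * a m =
        v m * a m - θ (σ k) * (u m * a m) - (θ (σ k) * t) * (v m * a m) := fun m => by
      rw [mul_sub, ← hvl m]
      simp only [hl]
      ring
    rw [Finset.sum_congr rfl fun m _ => h9 m, Finset.sum_sub_distrib, Finset.sum_sub_distrib,
      ← Finset.mul_sum, ← Finset.mul_sum, h6, h7]
    simp

theorem sum_aux {E : Type*} [NormedAddCommGroup E] [NormedSpace ℝ E] (s : Fin 6 → ℝ) (x : Fin 6 → E)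
    (g : E →L[ℝ] ℝ) (c d : ℝ) (h1 : ∑ k, s k = 0) (h2 : ∑ k, s k • x k = 0) :
    ∑ k, s k * ((g (x k) - c) / d) = 0 := by
  have h3 : ∑ k, s k * g (x k) = 0 := by
    have h4 := congrArg g h2
    rw [map_sum, map_zero] at h4
    rw [← h4]
    exact Finset.sum_congr rfl fun k _ => by rw [map_smul, smul_eq_mul]
  have h5 : ∀ k, s k * ((g (x k) - c) / d) = (s k * g (x k) - c * s k) * d⁻¹ := fun k => by
    rw [div_eq_mul_inv]; ring
  rw [Finset.sum_congr rfl fun k _ => h5 k, ← Finset.sum_mul, Finset.sum_sub_distrib,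
    ← Finset.mul_sum, h1, h3]
  simp

/-- Grünbaum 1963: a strictly antipodal set in three dimensional space has at most 5 points. -/
theorem gruenbaum (S : Finset (EuclideanSpace ℝ (Fin 3)))
    (hS : ∀ x ∈ S, ∀ y ∈ S, x ≠ y → ∃ f : EuclideanSpace ℝ (Fin 3) →L[ℝ] ℝ,
      ∀ z ∈ convexHull ℝ (↑S : Set (EuclideanSpace ℝ (Fin 3))),
        (z ≠ x → f x < f z) ∧ (z ≠ y → f z < f y)) : S.card ≤ 5 := by
  classical
  by_contra hcon
  push Not at hcon
  obtain ⟨T, hTS, hT⟩ := Finset.exists_subset_card_eq (show 6 ≤ S.card by omega)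
  set e := T.equivFin.symm with he
  set x : Fin 6 → EuclideanSpace ℝ (Fin 3) := fun k => (e (Fin.cast hT.symm k) : EuclideanSpace ℝ (Fin 3)) with hx
  have hxS : ∀ k, x k ∈ S := fun k => hTS (e (Fin.cast hT.symm k)).2
  have hxinj : Function.Injective x := by
    intro i j hij
    simp only [hx] at hij
    have h1 := e.injective (Subtype.ext hij)
    exact (Fin.cast_injective hT.symm) h1
  -- the space of affine dependencies
  let L : (Fin 6 → ℝ) →ₗ[ℝ] ℝ × EuclideanSpace ℝ (Fin 3) :=
    { toFun := fun s => (∑ k, s k, ∑ k, s k • x k)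
      map_add' := fun s t => by
        ext
        · simp [Finset.sum_add_distrib]
        · simp [Finset.sum_add_distrib, add_smul]
      map_smul' := fun c s => by
        ext
        · simp [Finset.mul_sum]
        · simp [Finset.mul_sum, Finset.smul_sum, smul_smul, mul_assoc] }
  have hrank : 2 ≤ Module.finrank ℝ (LinearMap.ker L) := by
    have h1 := L.finrank_range_add_finrank_ker
    have h2 : Module.finrank ℝ (LinearMap.range L) ≤ Module.finrank ℝ (ℝ × EuclideanSpace ℝ (Fin 3)) :=
      Submodule.finrank_le _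
    have h3 : Module.finrank ℝ (ℝ × EuclideanSpace ℝ (Fin 3)) = 4 := by
      rw [Module.finrank_prod, finrank_euclideanSpace_fin, Module.finrank_self]
    have h4 : Module.finrank ℝ (Fin 6 → ℝ) = 6 := by simp
    omega
  obtain ⟨f, hf⟩ := exists_linearIndependent_of_le_finrank hrank
  have hf2 := LinearIndependent.pair_iff.mp (show LinearIndependent ℝ ![f 0, f 1] by
    have : ![f 0, f 1] = f := by
      funext i; fin_cases i <;> rfl
    rw [this]; exact hf)
  have hker : ∀ m, (∑ k, (f m : Fin 6 → ℝ) k = 0) ∧ ∑ k, (f m : Fin 6 → ℝ) k • x k = 0 := by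
    intro m
    have h1 : L (f m : Fin 6 → ℝ) = 0 := LinearMap.mem_ker.mp (f m).2
    exact ⟨congrArg Prod.fst h1, congrArg Prod.snd h1⟩
  refine no_six (f 0 : Fin 6 → ℝ) (f 1 : Fin 6 → ℝ) ?_ (hker 0).1 (hker 1).1 ?_
  · intro α β hαβ
    apply hf2 α β
    apply Subtype.ext
    funext k
    simpa using hαβ k
  · intro i j hij
    obtain ⟨g, hg⟩ := hS (x i) (hxS i) (x j) (hxS j) (fun h => hij (hxinj h))
    have hmem : ∀ k, x k ∈ convexHull ℝ (↑S : Set (EuclideanSpace ℝ (Fin 3))) := fun k =>
      subset_convexHull ℝ _ (hxS k)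
    have hpos : 0 < g (x j) - g (x i) := by
      have := (hg (x j) (hmem j)).1 (fun h => hij (hxinj h).symm)
      linarith
    refine ⟨fun k => (g (x k) - g (x i)) / (g (x j) - g (x i)), by simp, div_self hpos.ne', ?_, ?_, ?_⟩
    · intro k hki hkj
      have h1 := (hg (x k) (hmem k)).1 (fun h => hki (hxinj h))
      have h2 := (hg (x k) (hmem k)).2 (fun h => hkj (hxinj h))
      exact ⟨div_pos (by linarith) hpos, (div_lt_one hpos).mpr (by linarith)⟩
    all_goals
      first
      | exact sum_aux _ x g _ _ (hker 0).1 (hker 0).2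
      | exact sum_aux _ x g _ _ (hker 1).1 (hker 1).2

end MPee94
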