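import Mathlib
import Pool.Agent.Lib.MP_ee94a4_gt.Body
import Pool.Agent.Lib.MP_ee94a4_gt.Gru

/-!
# At least six proper translates are needed
-/

set_option autoImplicit false
set_option linter.unusedVariables false

namespace MPee94

open Set Filter Topology

theorem Gam_zero_apply (p : Fin 3 × Bool) (i : Fin 3) :
    Gam p 0 i = sg p.2 * (if i = p.1 then 1 else 0) := by
  rw [Gam_apply]
  unfold gam
  rcases p with ⟨r, b⟩
  have hr : r = 0 ∨ r = 1 ∨ r = 2 := by fin_cases r <;> simp
  have hi : i = 0 ∨ i = 1 ∨ i = 2 := by fin_cases i <;> simp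
  rcases hr with rfl | rfl | rfl <;> rcases hi with rfl | rfl | rfl <;> simp

/-- (P0) the only point of `K` with first coordinate `≥ 1` is the vertex. -/
theorem P0 : ∀ z ∈ K, z 0 < 1 ∨ z = Gam (0, true) 0 := by
  intro z hz
  have h := face_lemma (lin 1 0 0) 1 (C := C) (T := {Gam (0, true) 0}) (convex_singleton _) ?_ ?_ z hz
  · simpa [lin_apply] using h
  · rintro w rfl
    simp [lin_apply, Gam_zero_apply, sg]
  · apply C_cases
    · intro t h0 h1
      rcases h0.eq_or_lt with rfl | h0
      · right; rfl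
      · left; nlinarith
    all_goals
      intro t h0 h1
      left
      nlinarith

/-- (P1) -/
theorem P1 : ∀ z ∈ K, z 0 - z 1 < 1 ∨ z ∈ segment ℝ (Gam (0, true) 0) (Gam (1, false) 0) := by
  intro z hz
  have h := face_lemma (lin 1 (-1) 0) 1 (C := C) (T := segment ℝ (Gam (0, true) 0) (Gam (1, false) 0))
    (convex_segment _ _) ?_ ?_ z hz
  · simpa [lin_apply, sub_eq_add_neg] using h
  · rintro w ⟨a, b, ha, hb, hab, rfl⟩
    rw [map_add, map_smul, map_smul]
    simp [lin_apply, Gam_zero_apply, sg, hab]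
  · apply C_cases
    · intro t h0 h1
      rcases h0.eq_or_lt with rfl | h0
      · right; exact left_mem_segment ℝ _ _
      · left; nlinarith
    · intro t h0 h1
      left; nlinarith
    · intro t h0 h1
      left; nlinarith
    · intro t h0 h1
      left; nlinarith
    · intro t h0 h1
      rcases h0.eq_or_lt with rfl | h0
      · right; exact right_mem_segment ℝ _ _
      · left; nlinarith
    · intro t h0 h1
      left; nlinarith

/-- (P2) -/
theorem P2 : ∀ z ∈ K, z 0 + z 2 < 1 ∨ z ∈ segment ℝ (Gam (0, true) 0) (Gam (2, true) 0) := by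
  intro z hz
  have h := face_lemma (lin 1 0 1) 1 (C := C) (T := segment ℝ (Gam (0, true) 0) (Gam (2, true) 0))
    (convex_segment _ _) ?_ ?_ z hz
  · simpa [lin_apply] using h
  · rintro w ⟨a, b, ha, hb, hab, rfl⟩
    rw [map_add, map_smul, map_smul]
    simp [lin_apply, Gam_zero_apply, sg, hab]
  · apply C_cases
    · intro t h0 h1
      rcases h0.eq_or_lt with rfl | h0
      · right; exact left_mem_segment ℝ _ _
      · left; nlinarith
    · intro t h0 h1
      left; nlinarith
    · intro t h0 h1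
      rcases h0.eq_or_lt with rfl | h0
      · right; exact right_mem_segment ℝ _ _
      · left; nlinarith
    · intro t h0 h1
      left; nlinarith
    · intro t h0 h1
      left; nlinarith
    · intro t h0 h1
      left; nlinarith

/-- (Q1) the projection along `(-1,-1,0)`. -/
theorem Q1 {t : ℝ} (ht0 : 0 < t) (ht1 : t ≤ 1 / 10) : ∀ z ∈ K,
    (5 - 2 * t) * (z 0 - z 1) + (2 + 4 * t) * z 2 < 5 - 2 * t + 12 * t ^ 2 ∨
      z = Gam (0, true) t := by
  intro z hz
  have h := face_lemma (lin (5 - 2 * t) (-(5 - 2 * t)) (2 + 4 * t)) (5 - 2 * t + 12 * t ^ 2)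
    (C := C) (T := {Gam (0, true) t}) (convex_singleton _) ?_ ?_ z hz
  · rcases h with h | h
    · left
      rw [lin_apply] at h
      linarith
    · right; exact h
  · rintro w rfl
    rw [lin_Gam]
    simp [sg, gam]
    ring
  · apply C_cases
    · intro s h0 h1
      by_cases hst : s = t
      · right; rw [hst]; rfl
      · left
        have h2 : 0 < (s - t) ^ 2 := by
          have := sub_ne_zero.mpr hst
          positivity
        nlinarith
    · intro s h0 h1
      left
      have h3 : 0 ≤ s * (1 / 10 - s) := mul_nonneg h0 (by linarith)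
      nlinarith [mul_nonneg ht0.le h3, mul_nonneg ht0.le h0, mul_pos ht0 ht0]
    · intro s h0 h1
      left
      have h3 : 0 ≤ s * (1 / 10 - s) := mul_nonneg h0 (by linarith)
      nlinarith [mul_nonneg ht0.le h3, mul_nonneg ht0.le h0, mul_pos ht0 ht0]
    · intro s h0 h1
      left
      have h3 : 0 ≤ s * (1 / 10 - s) := mul_nonneg h0 (by linarith)
      nlinarith [mul_nonneg ht0.le h3, mul_nonneg ht0.le h0, mul_pos ht0 ht0]
    · intro s h0 h1
      left
      have h3 : 0 ≤ s * (1 / 10 - s) := mul_nonneg h0 (by linarith)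
      nlinarith [mul_nonneg ht0.le h3, mul_nonneg ht0.le h0, mul_pos ht0 ht0]
    · intro s h0 h1
      left
      have h3 : 0 ≤ s * (1 / 10 - s) := mul_nonneg h0 (by linarith)
      nlinarith [mul_nonneg ht0.le h3, mul_nonneg ht0.le h0, mul_pos ht0 ht0]

/-- (Q2) the projection along `(-1,0,1)`. -/
theorem Q2 {t : ℝ} (ht0 : 0 < t) (ht1 : t ≤ 1 / 10) : ∀ z ∈ K,
    (5 - 2 * t) * (z 0 + z 2) - (2 + 4 * t) * z 1 < 5 - 2 * t + 12 * t ^ 2 ∨
      z = Gam (0, true) t := by
  intro z hz
  have h := face_lemma (lin (5 - 2 * t) (-(2 + 4 * t)) (5 - 2 * t)) (5 - 2 * t + 12 * t ^ 2)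
    (C := C) (T := {Gam (0, true) t}) (convex_singleton _) ?_ ?_ z hz
  · rcases h with h | h
    · left
      rw [lin_apply] at h
      linarith
    · right; exact h
  · rintro w rfl
    rw [lin_Gam]
    simp [sg, gam]
    ring
  · apply C_cases
    · intro s h0 h1
      by_cases hst : s = t
      · right; rw [hst]; rfl
      · left
        have h2 : 0 < (s - t) ^ 2 := by
          have := sub_ne_zero.mpr hst
          positivity
        nlinarith
    · intro s h0 h1
      left
      have h3 : 0 ≤ s * (1 / 10 - s) := mul_nonneg h0 (by linarith)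
      nlinarith [mul_nonneg ht0.le h3, mul_nonneg ht0.le h0, mul_pos ht0 ht0]
    · intro s h0 h1
      left
      have h3 : 0 ≤ s * (1 / 10 - s) := mul_nonneg h0 (by linarith)
      nlinarith [mul_nonneg ht0.le h3, mul_nonneg ht0.le h0, mul_pos ht0 ht0]
    · intro s h0 h1
      left
      have h3 : 0 ≤ s * (1 / 10 - s) := mul_nonneg h0 (by linarith)
      nlinarith [mul_nonneg ht0.le h3, mul_nonneg ht0.le h0, mul_pos ht0 ht0]
    · intro s h0 h1
      left
      have h3 : 0 ≤ s * (1 / 10 - s) := mul_nonneg h0 (by linarith)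
      nlinarith [mul_nonneg ht0.le h3, mul_nonneg ht0.le h0, mul_pos ht0 ht0]
    · intro s h0 h1
      left
      have h3 : 0 ≤ s * (1 / 10 - s) := mul_nonneg h0 (by linarith)
      nlinarith [mul_nonneg ht0.le h3, mul_nonneg ht0.le h0, mul_pos ht0 ht0]

/-- `u` works at the vertex `p` and at points of the fin arbitrarily close to it. -/
def Works (p : Fin 3 × Bool) (u : E3) : Prop :=
  Gam p 0 + u ∈ K ∧ ∃ᶠ t in 𝓝[>] (0 : ℝ), Gam p t + u ∈ K

theorem Works.rot {q : Fin 3 × Bool} {u : E3} (h : Works q u) (p : Fin 3 × Bool) :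
    Works (q.1 - p.1, p.2 == q.2) (rot p u) := by
  constructor
  · have := rot_mem p h.1
    rwa [map_add, rot_Gam] at this
  · refine h.2.mono fun t ht => ?_
    have := rot_mem p ht
    rwa [map_add, rot_Gam] at this

theorem neg_mem {z : E3} (hz : z ∈ K) : -z ∈ K := by
  have := rot_mem (0, false) hz
  convert this using 1
  ext i
  rw [rot_apply]
  simp [sg]

theorem freq_small {P : ℝ → Prop} (h : ∃ᶠ t in 𝓝[>] (0 : ℝ), P t) : ∃ t, 0 < t ∧ t ≤ 1 / 10 ∧ P t := by
  have h1 : ∀ᶠ t in 𝓝[>] (0 : ℝ), 0 < t ∧ t ≤ 1 / 10 := by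
    filter_upwards [self_mem_nhdsWithin, nhdsWithin_le_nhds (Iio_mem_nhds (show (0 : ℝ) < 1 / 10 by norm_num))]
      with t h1 h2
    exact ⟨h1, le_of_lt h2⟩
  obtain ⟨t, ht, ht'⟩ := (h.and_eventually h1).exists
  exact ⟨t, ht'.1, ht'.2, ht⟩

theorem ne_self_of_fin {p : Fin 3 × Bool} {t : ℝ} {u : E3} (hu : u ≠ 0) : Gam p t + u ≠ Gam p t := by
  intro h
  exact hu (by simpa using h)

/-- The opposite pair. -/
theorem pair0 {u : E3} (hu : u ≠ 0) (h1 : Works (0, true) u) (h2 : Works (0, false) u) : False := by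
  have a1 := P0 _ h1.1
  have a2 := P0 _ (neg_mem h2.1)
  have e1 : (Gam (0, true) 0 + u) 0 = 1 + u 0 := by
    simp [Gam_zero_apply, sg]
  have e2 : (-(Gam (0, false) 0 + u)) 0 = 1 - u 0 := by
    simp [Gam_zero_apply, sg]
    ring
  rcases a1 with a1 | a1
  · rcases a2 with a2 | a2
    · rw [e1] at a1
      rw [e2] at a2
      linarith
    · apply hu
      have h3 : Gam (0, false) 0 = - Gam (0, true) 0 := by
        ext i
        have e3 : (-Gam (0, true) 0 : E3) i = -(Gam (0, true) 0 i) := rfl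
        rw [e3, Gam_zero_apply, Gam_zero_apply]
        simp only [sg, if_true, if_false, Bool.false_eq_true, neg_mul, one_mul]
      rw [h3] at a2
      have : -(-Gam (0, true) 0 + u) = Gam (0, true) 0 - u := by abel
      rw [this] at a2
      simpa using a2
  · exact ne_self_of_fin hu a1

/-- The pair of adjacent vertices `(1,0,0)`, `(0,1,0)`. -/
theorem pair1 {u : E3} (hu : u ≠ 0) (h1 : Works (0, true) u) (h2 : Works (1, true) u) : False := by
  have a1 := P1 _ h1.1
  have a2 := P1 _ (neg_mem h2.1)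
  have e1 : (Gam (0, true) 0 + u) 0 - (Gam (0, true) 0 + u) 1 = 1 + (u 0 - u 1) := by
    simp [Gam_zero_apply, sg]
    ring
  have e2 : (-(Gam (1, true) 0 + u)) 0 - (-(Gam (1, true) 0 + u)) 1 = 1 - (u 0 - u 1) := by
    simp [Gam_zero_apply, sg]
    ring
  have hsegval : ∀ z ∈ segment ℝ (Gam (0, true) 0) (Gam (1, false) 0), z 0 - z 1 = 1 := by
    rintro z ⟨a, b, ha, hb, hab, rfl⟩
    simp [Gam_zero_apply, sg]
    linarith
  have hF0 : u 0 - u 1 ≤ 0 := by
    rcases a1 with a1 | a1
    · linarith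
    · have := hsegval _ a1
      linarith
  have hF1 : 0 ≤ u 0 - u 1 := by
    rcases a2 with a2 | a2
    · linarith
    · have := hsegval _ a2
      linarith
  rcases a1 with a1 | ⟨a, b, ha, hb, hab, a1⟩
  · linarith
  have c0 := congrArg (fun z : E3 => z 0) a1
  have c1 := congrArg (fun z : E3 => z 1) a1
  have c2 := congrArg (fun z : E3 => z 2) a1
  simp [Gam_zero_apply, sg] at c0 c1 c2
  -- `u = b • (-1,-1,0)`
  obtain ⟨t, ht0, ht1, ht⟩ := freq_small h1.2
  rcases Q1 ht0 ht1 _ ht with h | h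
  · have e3 : (Gam (0, true) t + u) 0 - (Gam (0, true) t + u) 1 = 1 - 2 * t - 2 * t ^ 2 + (u 0 - u 1) := by
      simp [Gam_apply, gam, sg]
      ring
    have e4 : (Gam (0, true) t + u) 2 = 5 * t - t ^ 2 + u 2 := by
      simp [Gam_apply, gam, sg]
    rw [e3, e4] at h
    have e5 : u 0 - u 1 = 0 := le_antisymm hF0 hF1
    have e6 : u 2 = 0 := by linarith
    rw [e5, e6] at h
    nlinarith
  · exact ne_self_of_fin hu h

/-- The pair of adjacent vertices `(1,0,0)`, `(0,0,-1)`. -/
theorem pair2 {u : E3} (hu : u ≠ 0) (h1 : Works (0, true) u) (h2 : Works (2, false) u) : False := by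
  have a1 := P2 _ h1.1
  have a2 := P2 _ (neg_mem h2.1)
  have e1 : (Gam (0, true) 0 + u) 0 + (Gam (0, true) 0 + u) 2 = 1 + (u 0 + u 2) := by
    simp [Gam_zero_apply, sg]
    ring
  have e2 : (-(Gam (2, false) 0 + u)) 0 + (-(Gam (2, false) 0 + u)) 2 = 1 - (u 0 + u 2) := by
    simp [Gam_zero_apply, sg]
    ring
  have hsegval : ∀ z ∈ segment ℝ (Gam (0, true) 0) (Gam (2, true) 0), z 0 + z 2 = 1 := by
    rintro z ⟨a, b, ha, hb, hab, rfl⟩
    simp [Gam_zero_apply, sg]
    linarith
  have hF0 : u 0 + u 2 ≤ 0 := by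
    rcases a1 with a1 | a1
    · linarith
    · have := hsegval _ a1
      linarith
  have hF1 : 0 ≤ u 0 + u 2 := by
    rcases a2 with a2 | a2
    · linarith
    · have := hsegval _ a2
      linarith
  rcases a1 with a1 | ⟨a, b, ha, hb, hab, a1⟩
  · linarith
  have c0 := congrArg (fun z : E3 => z 0) a1
  have c1 := congrArg (fun z : E3 => z 1) a1
  have c2 := congrArg (fun z : E3 => z 2) a1
  simp [Gam_zero_apply, sg] at c0 c1 c2
  obtain ⟨t, ht0, ht1, ht⟩ := freq_small h1.2
  rcases Q2 ht0 ht1 _ ht with h | h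
  · have e3 : (Gam (0, true) t + u) 0 + (Gam (0, true) t + u) 2 = 1 - 2 * t - 2 * t ^ 2 + (u 0 + u 2) := by
      simp [Gam_apply, gam, sg]
      ring
    have e4 : (Gam (0, true) t + u) 1 = -(5 * t - t ^ 2) + u 1 := by
      simp [Gam_apply, gam, sg]
    rw [e3, e4] at h
    have e5 : u 0 + u 2 = 0 := le_antisymm hF0 hF1
    have e6 : u 1 = 0 := by linarith
    rw [e5, e6] at h
    nlinarith
  · exact ne_self_of_fin hu h

theorem rot_ne_zero (p : Fin 3 × Bool) {u : E3} (hu : u ≠ 0) : rot p u ≠ 0 := by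
  intro h
  apply hu
  ext i
  have := congrArg (fun z : E3 => z (i - p.1)) h
  simp only [rot_apply] at this
  have e : ∀ i a : Fin 3, i - a + a = i := by decide
  rw [e] at this
  have hs : sg p.2 ≠ 0 := by
    unfold sg
    split_ifs <;> norm_num
  simpa [hs] using this

/-- No nonzero vector works at two different vertices. -/
theorem no_common {p q : Fin 3 × Bool} (hpq : p ≠ q) {u : E3} (hu : u ≠ 0) (h1 : Works p u)
    (h2 : Works q u) : False := by
  -- move `p` to `(0, true)`
  have k1 := h1.rot p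
  have k2 := h2.rot p
  have hu' := rot_ne_zero p hu
  rw [show (p.1 - p.1, p.2 == p.2) = ((0 : Fin 3), true) by simp] at k1
  have hdec : ∀ p q : Fin 3 × Bool, p ≠ q → (q.1 - p.1, p.2 == q.2) ≠ ((0 : Fin 3), true) := by
    decide
  have hq := hdec p q hpq
  generalize hq' : (q.1 - p.1, p.2 == q.2) = r at k2 hq
  generalize rot p u = w at k1 k2 hu'
  clear hq' h1 h2
  -- the five cases
  have hdec2 : ∀ r : Fin 3 × Bool, r ≠ (0, true) →
      r = (0, false) ∨ r = (1, true) ∨ r = (2, false) ∨ r = (2, true) ∨ r = (1, false) := by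
    decide
  have hcases := hdec2 r hq
  rcases hcases with rfl | rfl | rfl | rfl | rfl
  · exact pair0 hu' k1 k2
  · exact pair1 hu' k1 k2
  · exact pair2 hu' k1 k2
  · -- swap the roles
    have m1 := k2.rot (2, true)
    have m2 := k1.rot (2, true)
    exact pair1 (rot_ne_zero _ hu') m1 m2
  · have m1 := k2.rot (1, false)
    have m2 := k1.rot (1, false)
    exact pair2 (rot_ne_zero _ hu') m1 m2

/-- `K` is not covered by fewer than six proper translates. -/
theorem six_le {k : ℕ} (t : Fin k → E3) (ht : ∀ i, t i ≠ 0)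
    (hK : K ⊆ ⋃ i, (fun p => t i + p) '' K) : 6 ≤ k := by
  by_contra hcon
  push Not at hcon
  have h1 : ∀ p : Fin 3 × Bool, ∃ i : Fin k, Works p (-(t i)) := by
    intro p
    have h2 : ∀ᶠ s in 𝓝[>] (0 : ℝ), ∃ i : Fin k, Gam p s + -(t i) ∈ K := by
      filter_upwards [self_mem_nhdsWithin, nhdsWithin_le_nhds (Iio_mem_nhds (show (0 : ℝ) < 1 / 10 by norm_num))]
        with s h1 h2
      have h3 := hK (Gam_mem p (le_of_lt h1) (le_of_lt h2))
      rw [mem_iUnion] at h3
      obtain ⟨i, w, hw, hw'⟩ := h3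
      refine ⟨i, ?_⟩
      rw [← hw']
      simpa using hw
    obtain ⟨i, hi⟩ : ∃ i : Fin k, ∃ᶠ s in 𝓝[>] (0 : ℝ), Gam p s + -(t i) ∈ K := by
      by_contra hno
      push Not at hno
      have h4 : ∀ᶠ s in 𝓝[>] (0 : ℝ), ∀ i : Fin k, ¬ (Gam p s + -(t i) ∈ K) := by
        rw [eventually_all]
        intro i
        exact hno i
      obtain ⟨s, ⟨i, h5⟩, h6⟩ := (h2.and h4).exists
      exact h6 i h5
    refine ⟨i, ?_, hi⟩
    have hlim : Tendsto (fun s => Gam p s + -(t i)) (𝓝[>] (0 : ℝ)) (𝓝 (Gam p 0 + -(t i))) := by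
      apply Tendsto.mono_left _ nhdsWithin_le_nhds
      exact ((Gam_continuous p).add continuous_const).tendsto 0
    exact K_compact.isClosed.mem_of_frequently_of_tendsto hi hlim
  choose f hf using h1
  obtain ⟨p, q, hpq, hfpq⟩ := Fintype.exists_ne_map_eq_of_card_lt f (by simp; omega)
  refine no_common hpq (neg_ne_zero.mpr (ht (f p))) (hf p) ?_
  rw [hfpq]
  exact hf q

theorem zero_mem_interior : (0 : E3) ∈ interior K := by
  rw [mem_interior]
  refine ⟨{z : E3 | ∀ i, |z i| < 1 / 3}, ?_, ?_, by simp⟩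
  · intro z hz
    have h0 := abs_lt.mp (hz 0)
    have h1 := abs_lt.mp (hz 1)
    have h2 := abs_lt.mp (hz 2)
    have hsum : z = ∑ p : Fin 3 × Bool, (1 / 6 + sg p.2 * z p.1 / 2) • Gam p 0 := by
      ext i
      rw [Fintype.sum_prod_type]
      simp only [Fintype.sum_bool, WithLp.ofLp_sum, Finset.sum_apply, WithLp.ofLp_add, Pi.add_apply,
        WithLp.ofLp_smul, Pi.smul_apply, smul_eq_mul, Gam_zero_apply, sg, if_true, if_false,
        Bool.false_eq_true]
      have hi : i = 0 ∨ i = 1 ∨ i = 2 := by fin_cases i <;> simp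
      rw [Fin.sum_univ_three]
      rcases hi with rfl | rfl | rfl <;> simp <;> ring
    rw [hsum]
    apply K_convex.sum_mem
    · rintro ⟨r, b⟩ _
      have hr : r = 0 ∨ r = 1 ∨ r = 2 := by fin_cases r <;> simp
      rcases hr with rfl | rfl | rfl <;> cases b <;> simp [sg] <;> linarith
    · rw [Fintype.sum_prod_type]
      simp [Fin.sum_univ_three, sg]
      ring
    · intro p _
      exact Gam_mem p le_rfl (by norm_num)
  · have : {z : E3 | ∀ i, |z i| < 1 / 3} = ⋂ i : Fin 3, {z : E3 | |z i| < 1 / 3} := by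
      ext z; simp
    rw [this]
    apply isOpen_iInter_of_finite
    intro i
    exact isOpen_lt (by fun_prop) continuous_const

end MPee94
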